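import Mathlib
import Pool.Agent.Q273.CG.Two

/-!
# Cantor sets of dilates from many good integers in short windows, with a property for every index
-/

set_option autoImplicit false

namespace Pool.Agent.Q273.SH

open Set Filter Topology MeasureTheory
open scoped ENNReal NNReal
open Pool.Agent.Q273.CG

/-- If, for all large `n`, every window of length `(x n)^(1-δ)` above `w (x n)`, `u ≤ w ≤ v`, contains
at least `(x n)^(1-δ-ε δ/8)` integers with the property `G n`, the `α` in `(u, v)` such that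
`⌊α x n⌋` has the property `G n` for all large `n` have dimension at least `1 - ε`. -/
theorem core {δ : ℝ} (hδ0 : 0 < δ) (hδ1 : δ < 1 / 2) {ε : ℝ} (h0 : 0 < ε) (h1 : ε < 1)
    (x : ℕ → ℝ) (hx : ∀ n, 0 < x n) (hxt : Tendsto x atTop atTop)
    (hxC : ∀ᶠ n in atTop, (x n) ^ (4 / δ) ≤ x (n + 1)) (G : ℕ → ℕ → Prop)
    (u v : ℝ) (hu : 0 < u) (huv : u < v)
    (hG : ∀ᶠ n in atTop, ∀ w : ℝ, u ≤ w → w ≤ v → ∃ φ : ℕ → ℕ,
      (∀ j, j < ⌊(x n) ^ (1 - δ - ε * δ / 8)⌋₊ → G n (φ j) ∧ w * x n < φ j ∧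
        (φ j : ℝ) + 1 ≤ w * x n + (x n) ^ (1 - δ)) ∧
      ∀ i j : ℕ, i < j → j < ⌊(x n) ^ (1 - δ - ε * δ / 8)⌋₊ → φ i + (j - i) ≤ φ j) :
    ENNReal.ofReal (1 - ε) ≤
      dimH {α : ℝ | u < α ∧ α < v ∧ ∀ᶠ n in atTop, G n ⌊α * x n⌋₊} := by
  classical
  set κ : ℝ := ε * δ / 8 with hκ
  have hκ0 : 0 < κ := by positivity
  have hκ1 : κ ≤ ε / 16 := by rw [hκ]; nlinarith
  have hεδ : 0 < ε * δ := by positivity
  set a : ℝ := (3 * u + v) / 4 with ha
  set b : ℝ := (u + 3 * v) / 4 with hb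
  have hvu : 0 < v - u := by linarith
  have hba : b - a = (v - u) / 2 := by rw [ha, hb]; ring
  have ha0 : 0 < a := by rw [ha]; linarith
  -- thresholds
  have hthr : ∀ᶠ y : ℝ in atTop, 16 ≤ y ^ (ε / 2 - κ) ∧
      (8 ≤ y ^ (3 * δ / 4) ∧ (1 ≤ y ∧ 1 / (v - u) ≤ y)) ∧
      2 ≤ y ^ (1 - δ - κ) := by
    refine ((tendsto_rpow_atTop (by linarith)).eventually_ge_atTop _).and (((
      (tendsto_rpow_atTop (by positivity)).eventually_ge_atTop _).and
      ((eventually_ge_atTop _).and (eventually_ge_atTop _))).and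
      ((tendsto_rpow_atTop (by linarith)).eventually_ge_atTop _))
  obtain ⟨N0, hN0⟩ := eventually_atTop.1 ((hG.and (hxt.eventually hthr)).and hxC)
  set y : ℕ → ℝ := fun k => x (N0 + k) with hy
  have hypos : ∀ k, 0 < y k := fun k => hx _
  have hthr' : ∀ k, _ := fun k => (hN0 (N0 + k) (by omega)).1.2
  have hy1 : ∀ k, 1 ≤ y k := fun k => (hthr' k).2.1.2.1
  -- `y k ≤ (y (k+1))^(δ/4)`
  have hyδ : ∀ k, y k ≤ (y (k + 1)) ^ (δ / 4) := by
    intro k
    have h2 : (y k) ^ (4 / δ) ≤ y (k + 1) := (hN0 (N0 + k) (by omega)).2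
    have h3 := Real.rpow_le_rpow (Real.rpow_nonneg (hypos k).le _) h2 (show 0 ≤ δ / 4 by positivity)
    rw [← Real.rpow_mul (hypos k).le] at h3
    have h4 : 4 / δ * (δ / 4) = 1 := by field_simp
    rwa [h4, Real.rpow_one] at h3
  set ℓ : ℕ → ℝ := fun k => 1 / (2 * y k) with hℓ
  set W : ℕ → ℝ := fun k => (y (k + 1)) ^ (-δ) with hW
  set τ : ℕ → ℝ := fun k => 1 / (2 * y (k + 1)) with hτ
  set T : ℕ → ℕ := fun k => ⌊ℓ k / (2 * W k)⌋₊ with hT
  set K : ℕ → ℕ := fun k => ⌊(y (k + 1)) ^ (1 - δ - κ)⌋₊ with hK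
  have hypow : ∀ (k : ℕ) (z : ℝ), 0 < (y k) ^ z := fun k z => Real.rpow_pos_of_pos (hypos k) z
  have hℓpos : ∀ n, 0 < ℓ n := fun n => by have := hypos n; simp only [hℓ]; positivity
  have hWpos : ∀ n, 0 < W n := fun n => hypow _ _
  have hτpos : ∀ n, 0 < τ n := fun n => by
    have := hypos (n + 1)
    simp only [hτ]
    positivity
  -- `y W ≤ (y (k+1))^(-...)`
  have hyW3 : ∀ k, y k * W k ≤ (y (k + 1)) ^ (-(3 * δ / 4)) := by
    intro k
    calc y k * (y (k + 1)) ^ (-δ) ≤ (y (k + 1)) ^ (δ / 4) * (y (k + 1)) ^ (-δ) :=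
          mul_le_mul_of_nonneg_right (hyδ k) (hypow _ _).le
      _ = _ := by
          rw [← Real.rpow_add (hypos _)]
          congr 1
          ring
  have hyW : ∀ k, 8 * (y k * W k) ≤ 1 := by
    intro k
    obtain ⟨-, ⟨e1, -⟩, -⟩ := hthr' (k + 1)
    have e3 := hyW3 k
    have e4 : (y (k + 1)) ^ (-(3 * δ / 4)) * (y (k + 1)) ^ (3 * δ / 4) = 1 := by
      rw [← Real.rpow_add (hypos _)]
      simp
    have e5 := hypow (k + 1) (-(3 * δ / 4))
    have e1' : 8 ≤ (y (k + 1)) ^ (3 * δ / 4) := e1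
    calc 8 * (y k * W k) ≤ 8 * (y (k + 1)) ^ (-(3 * δ / 4)) := by linarith
      _ ≤ (y (k + 1)) ^ (3 * δ / 4) * (y (k + 1)) ^ (-(3 * δ / 4)) :=
          mul_le_mul_of_nonneg_right e1' e5.le
      _ = 1 := by rw [mul_comm]; exact e4
  have hTy : ∀ k, 1 / (8 * (y k * W k)) ≤ T k ∧ (T k : ℝ) ≤ ℓ k / (2 * W k) ∧ 0 < T k := by
    intro k
    have e0 := hyW k
    have e1 := hypos k
    have e2 := hWpos k
    have e3 : ℓ k / (2 * W k) = 2 * (1 / (8 * (y k * W k))) := by
      simp only [hℓ]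
      field_simp
      norm_num
    have e4 : 1 ≤ 1 / (8 * (y k * W k)) := by
      rw [le_div_iff₀ (by positivity)]
      linarith
    have e5 : (T k : ℝ) ≤ ℓ k / (2 * W k) := Nat.floor_le (by rw [e3]; linarith)
    have e6 : ℓ k / (2 * W k) < T k + 1 := Nat.lt_floor_add_one _
    have e7 : 1 / (8 * (y k * W k)) ≤ T k := by linarith
    refine ⟨e7, e5, ?_⟩
    have : (0 : ℝ) < T k := by linarith
    exact_mod_cast this
  have hKP : ∀ k, (y (k + 1)) ^ (1 - δ - κ) / 2 ≤ K k := by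
    intro k
    have e1 : 2 ≤ (y (k + 1)) ^ (1 - δ - κ) := (hthr' (k + 1)).2.2
    have e2 : (y (k + 1)) ^ (1 - δ - κ) < ⌊(y (k + 1)) ^ (1 - δ - κ)⌋₊ + 1 := Nat.lt_floor_add_one _
    show _ ≤ ((⌊(y (k + 1)) ^ (1 - δ - κ)⌋₊ : ℕ) : ℝ)
    linarith
  have hKpos : ∀ k, 0 < K k := by
    intro k
    have e1 := hKP k
    have e2 : 2 ≤ (y (k + 1)) ^ (1 - δ - κ) := (hthr' (k + 1)).2.2
    have : (0 : ℝ) < K k := by linarith
    exact_mod_cast this
  set s : ℝ≥0 := ⟨1 - ε, by linarith⟩ with hs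
  have hsr : (s : ℝ) = 1 - ε := rfl
  have hs0 : 0 < s := by
    have : (0 : ℝ) < (s : ℝ) := by rw [hsr]; linarith
    exact_mod_cast this
  set Q : ℕ → ℝ := fun k => ∏ i ∈ Finset.range k, ((T i : ℝ) * K i) with hQ
  have hstep : ∀ k, (y (k + 1)) ^ (1 - ε / 2) / y k ≤ (T k : ℝ) * K k := by
    intro k
    obtain ⟨e2, -⟩ := hthr' (k + 1)
    have e2' : 16 ≤ (y (k + 1)) ^ (ε / 2 - κ) := e2
    have e3 := (hTy k).1
    have e4 := hypos k
    have e5 := hypos (k + 1)
    have e6 := hKP k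
    have e8 : 1 / (8 * (y k * W k)) = (y (k + 1)) ^ δ / (8 * y k) := by
      show 1 / (8 * (y k * (y (k + 1)) ^ (-δ))) = _
      rw [Real.rpow_neg e5.le]
      have := (hypow (k + 1) δ).ne'
      field_simp
    rw [e8] at e3
    have e9 : (y (k + 1)) ^ (1 - ε / 2) * 16 ≤ (y (k + 1)) ^ δ * (y (k + 1)) ^ (1 - δ - κ) := by
      calc (y (k + 1)) ^ (1 - ε / 2) * 16 ≤ (y (k + 1)) ^ (1 - ε / 2) * (y (k + 1)) ^ (ε / 2 - κ) :=
            mul_le_mul_of_nonneg_left e2' (hypow _ _).le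
        _ = (y (k + 1)) ^ δ * (y (k + 1)) ^ (1 - δ - κ) := by
            rw [← Real.rpow_add e5, ← Real.rpow_add e5]
            congr 1
            ring
    calc (y (k + 1)) ^ (1 - ε / 2) / y k = (y (k + 1)) ^ (1 - ε / 2) * 16 / (16 * y k) := by
          field_simp
      _ ≤ (y (k + 1)) ^ δ * (y (k + 1)) ^ (1 - δ - κ) / (16 * y k) :=
          div_le_div_of_nonneg_right e9 (by positivity)
      _ = (y (k + 1)) ^ δ / (8 * y k) * ((y (k + 1)) ^ (1 - δ - κ) / 2) := by
          field_simp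
          norm_num
      _ ≤ (T k : ℝ) * K k :=
          mul_le_mul e3 e6 (by have := hypow (k + 1) (1 - δ - κ); positivity) (Nat.cast_nonneg _)
  have hQge : ∀ k, (y 0) ^ (-(1 - ε)) * (y k) ^ (1 - ε) ≤ Q k := by
    intro k
    induction k with
    | zero =>
      simp only [hQ, Finset.range_zero, Finset.prod_empty]
      rw [← Real.rpow_add (hypos 0)]
      simp
    | succ k ih =>
      simp only [hQ] at ih ⊢
      rw [Finset.prod_range_succ]
      have e4 := hypos k
      have e5 := hypos (k + 1)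
      have e6 : (y (k + 1)) ^ (1 - ε) ≤ (y k) ^ (1 - ε) * ((y (k + 1)) ^ (1 - ε / 2) / y k) := by
        have e7 : (y k) ^ ε ≤ (y (k + 1)) ^ (ε / 2) := by
          have e8 : y k ≤ (y (k + 1)) ^ (1 / 2 : ℝ) := (hyδ k).trans
            (Real.rpow_le_rpow_of_exponent_le (hy1 _) (by linarith))
          have e9 := Real.rpow_le_rpow e4.le e8 h0.le
          rw [← Real.rpow_mul e5.le] at e9
          convert e9 using 2
          ring
        have e8 : (y k) ^ (1 - ε) = y k / (y k) ^ ε := by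
          rw [Real.rpow_sub e4, Real.rpow_one]
        have e9 : (y (k + 1)) ^ (1 - ε / 2) = (y (k + 1)) ^ (1 - ε) * (y (k + 1)) ^ (ε / 2) := by
          rw [← Real.rpow_add e5]
          congr 1
          ring
        have e10 := hypow k ε
        have e11 := hypow (k + 1) (1 - ε)
        have e12 : (y k) ^ (1 - ε) * ((y (k + 1)) ^ (1 - ε / 2) / y k) =
            (y (k + 1)) ^ (1 - ε) * ((y (k + 1)) ^ (ε / 2) / (y k) ^ ε) := by
          rw [e8, e9]
          field_simp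
        rw [e12]
        apply le_mul_of_one_le_right e11.le
        rw [le_div_iff₀ e10]
        linarith
      have e13 := hypow 0 (-(1 - ε))
      calc (y 0) ^ (-(1 - ε)) * (y (k + 1)) ^ (1 - ε)
          ≤ (y 0) ^ (-(1 - ε)) * ((y k) ^ (1 - ε) * ((y (k + 1)) ^ (1 - ε / 2) / y k)) :=
            mul_le_mul_of_nonneg_left e6 e13.le
        _ = ((y 0) ^ (-(1 - ε)) * (y k) ^ (1 - ε)) * ((y (k + 1)) ^ (1 - ε / 2) / y k) := by ring
        _ ≤ _ := mul_le_mul ih (hstep k) (div_nonneg (hypow _ _).le e4.le)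
            (Finset.prod_nonneg fun i _ => by positivity)
  have hyt : Tendsto y atTop atTop := by
    have := (tendsto_add_atTop_iff_nat N0).2 hxt
    refine this.congr fun k => ?_
    simp only [hy]
    rw [add_comm]
  set c1 : ℝ := (y 0) ^ (-(1 - ε)) with hc1
  have hc1pos : 0 < c1 := hypow 0 _
  have key := le_dimH_two (a := a) (b := b) (c := c1 / 32) (s := s) hs0
    (by rw [hsr]; linarith) (by positivity) ℓ W τ T K
    (fun k => {α | G (N0 + (k + 1)) ⌊α * y (k + 1)⌋₊}) hℓpos ?_ ?_ hWpos hτpos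
      (fun k => (hTy k).2.2) hKpos ?_ ?_ ?_ ?_ ?_
  · have h2 : ENNReal.ofReal (1 - ε) = (s : ℝ≥0∞) := by
      rw [← hsr]
      exact ENNReal.ofReal_coe_nnreal
    rw [h2]
    refine key.trans (dimH_mono ?_)
    rintro α ⟨hα1, hα2, hα3⟩
    refine ⟨by linarith, by linarith, ?_⟩
    rw [eventually_atTop]
    refine ⟨N0 + 1, fun n hn => ?_⟩
    obtain ⟨k, rfl⟩ := Nat.exists_eq_add_of_le hn
    rw [show N0 + 1 + k = N0 + (k + 1) by ring]
    exact hα3 k
  · -- `ℓ → 0`
    have h3 : Tendsto (fun k => (y k)⁻¹) atTop (𝓝 0) := hyt.inv_tendsto_atTop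
    refine squeeze_zero (fun k => (hℓpos k).le) (fun k => ?_) h3
    simp only [hℓ]
    rw [inv_eq_one_div]
    apply one_div_le_one_div_of_le (hypos k)
    linarith [hypos k]
  · -- `ℓ 0 ≤ b - a`
    have h2 : 1 / (v - u) ≤ y 0 := (hthr' 0).2.1.2.2
    rw [hba]
    simp only [hℓ]
    rw [div_le_iff₀ hvu] at h2
    rw [div_le_iff₀ (by have := hypos 0; positivity)]
    linarith
  · intro k
    have h2 := (hTy k).2.1
    rw [le_div_iff₀ (by have := hWpos k; positivity)] at h2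
    linarith
  · -- products tend to infinity
    have h2 : Tendsto (fun k => c1 * (y k) ^ (1 - ε)) atTop atTop :=
      ((tendsto_rpow_atTop (by linarith)).comp hyt).const_mul_atTop hc1pos
    exact tendsto_atTop_mono hQge h2
  · -- first dimension condition
    intro k
    have e1 := hQge k
    have e2 := (hTy k).1
    have e3 := hWpos k
    have e4 := hypos k
    have e5 : 1 / (8 * y k) ≤ T k * W k := by
      calc 1 / (8 * y k) = 1 / (8 * (y k * W k)) * W k := by field_simp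
        _ ≤ _ := mul_le_mul_of_nonneg_right e2 e3.le
    have e6 : (1 / (8 * y k)) ^ (1 - ε) ≤ (T k * W k) ^ (s : ℝ) := by
      rw [hsr]
      exact Real.rpow_le_rpow (by positivity) e5 (by linarith)
    have e7 : (1 / (8 * y k)) ^ (1 - ε) = (8 : ℝ) ^ (-(1 - ε)) * ((y k) ^ (1 - ε))⁻¹ := by
      rw [one_div, Real.inv_rpow (by positivity), Real.mul_rpow (by norm_num) e4.le, mul_inv,
        Real.rpow_neg (by norm_num)]
    have e8 : (1 : ℝ) / 8 ≤ (8 : ℝ) ^ (-(1 - ε)) := by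
      calc (1 : ℝ) / 8 = (8 : ℝ) ^ (-1 : ℝ) := by rw [Real.rpow_neg_one]; norm_num
        _ ≤ _ := Real.rpow_le_rpow_of_exponent_le (by norm_num) (by linarith)
    have e9 := hypow k (1 - ε)
    calc c1 / 32 ≤ c1 * (1 / 8) := by linarith
      _ ≤ c1 * (8 : ℝ) ^ (-(1 - ε)) := mul_le_mul_of_nonneg_left e8 hc1pos.le
      _ = (c1 * (y k) ^ (1 - ε)) * ((8 : ℝ) ^ (-(1 - ε)) * ((y k) ^ (1 - ε))⁻¹) := by
          field_simp
      _ = (c1 * (y k) ^ (1 - ε)) * (1 / (8 * y k)) ^ (1 - ε) := by rw [e7]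
      _ ≤ Q k * (T k * W k) ^ (s : ℝ) :=
          mul_le_mul e1 e6 (Real.rpow_nonneg (by positivity) _)
            (le_trans (by positivity) e1)
  · -- second dimension condition
    intro k
    have e1 := hQge k
    have e2 := (hTy k).1
    have e3 := hWpos k
    have e4 := hypos k
    have e5 := hypos (k + 1)
    have e9 := hypow k (1 - ε)
    have e0 := hyW k
    have hQpos : 0 < Q k := lt_of_lt_of_le (by positivity) e1
    -- `K τ ≥ W λ / 4` with `λ = (y (k+1))^(-κ)`, `(y W)^ε ≤ λ`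
    set lam : ℝ := (y (k + 1)) ^ (-κ) with hlam
    have hl0 : 0 < lam := hypow _ _
    have hl1 : W k * lam / 4 ≤ K k * τ k := by
      calc (y (k + 1)) ^ (-δ) * (y (k + 1)) ^ (-κ) / 4
          = (y (k + 1)) ^ (1 - δ - κ) / 2 * (1 / (2 * y (k + 1))) := by
            rw [show 1 - δ - κ = -δ + -κ + 1 by ring, Real.rpow_add e5, Real.rpow_add e5,
              Real.rpow_one]
            field_simp
            norm_num
        _ ≤ _ := mul_le_mul_of_nonneg_right (hKP k) (by positivity)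
    have hl2 : (y k * W k) ^ ε ≤ lam := by
      calc (y k * W k) ^ ε ≤ ((y (k + 1)) ^ (-(3 * δ / 4))) ^ ε :=
            Real.rpow_le_rpow (by positivity) (hyW3 k) h0.le
        _ = (y (k + 1)) ^ (-(3 * δ / 4) * ε) := (Real.rpow_mul e5.le _ _).symm
        _ ≤ (y (k + 1)) ^ (-κ) := by
            apply Real.rpow_le_rpow_of_exponent_le (hy1 _)
            rw [hκ]
            nlinarith
    have e10 : (W k * lam / 4) ^ (1 - ε) ≤ (K k * τ k) ^ (s : ℝ) := by
      rw [hsr]
      exact Real.rpow_le_rpow (by positivity) hl1 (by linarith)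
    have e11 : (W k * lam / 4) ^ (1 - ε) = (W k) ^ (1 - ε) * lam ^ (1 - ε) / (4 : ℝ) ^ (1 - ε) := by
      rw [Real.div_rpow (by positivity) (by norm_num), Real.mul_rpow e3.le hl0.le]
    have e12 : (4 : ℝ) ^ (1 - ε) ≤ 4 := by
      calc (4 : ℝ) ^ (1 - ε) ≤ (4 : ℝ) ^ (1 : ℝ) :=
            Real.rpow_le_rpow_of_exponent_le (by norm_num) (by linarith)
        _ = 4 := Real.rpow_one 4
    have hlam1 : lam ≤ 1 := by
      rw [hlam, Real.rpow_neg e5.le]
      exact inv_le_one_of_one_le₀ (Real.one_le_rpow (hy1 _) hκ0.le)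
    have e13 : (y k * W k) ^ ε ≤ lam ^ (1 - ε) := by
      refine hl2.trans ?_
      calc lam = lam ^ (1 : ℝ) := (Real.rpow_one _).symm
        _ ≤ lam ^ (1 - ε) := Real.rpow_le_rpow_of_exponent_ge hl0 hlam1 (by linarith)
    have e14 : (y k) ^ (1 - ε) * (1 / (8 * (y k * W k))) * ((W k) ^ (1 - ε) * (y k * W k) ^ ε) = 1 / 8 := by
      have e15 : (y k) ^ (1 - ε) * (W k) ^ (1 - ε) = (y k * W k) ^ (1 - ε) :=
        (Real.mul_rpow e4.le e3.le).symm
      have e16 : (y k * W k) ^ (1 - ε) * (y k * W k) ^ ε = y k * W k := by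
        rw [← Real.rpow_add (by positivity)]
        norm_num
      calc (y k) ^ (1 - ε) * (1 / (8 * (y k * W k))) * ((W k) ^ (1 - ε) * (y k * W k) ^ ε)
          = ((y k) ^ (1 - ε) * (W k) ^ (1 - ε)) * (y k * W k) ^ ε / (8 * (y k * W k)) := by ring
        _ = 1 / 8 := by
            rw [e15, e16]
            field_simp
    have e17 := Real.rpow_pos_of_pos e3 (1 - ε)
    have e18 : 0 < (y k * W k) ^ ε := Real.rpow_pos_of_pos (by positivity) _
    calc c1 / 32 = c1 * (1 / 8) * (1 / 4) := by ring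
      _ = (c1 * (y k) ^ (1 - ε)) * (1 / (8 * (y k * W k))) *
            ((W k) ^ (1 - ε) * (y k * W k) ^ ε / 4) := by rw [← e14]; ring
      _ ≤ Q k * T k * ((W k) ^ (1 - ε) * lam ^ (1 - ε) / (4 : ℝ) ^ (1 - ε)) := by
          apply mul_le_mul
          · exact mul_le_mul e1 e2 (by positivity) hQpos.le
          · apply div_le_div₀ (by positivity) _ (by positivity) e12
            exact mul_le_mul_of_nonneg_left e13 e17.le
          · positivity
          · positivity
      _ ≤ Q k * T k * (K k * τ k) ^ (s : ℝ) := by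
          rw [← e11]
          exact mul_le_mul_of_nonneg_left e10 (by positivity)
  · -- the children
    intro k w hw1 hw2
    obtain ⟨⟨h4, -⟩, -⟩ := hN0 (N0 + (k + 1)) (by omega)
    have hXeq : x (N0 + (k + 1)) = y (k + 1) := rfl
    rw [hXeq] at h4
    set X : ℝ := y (k + 1) with hX
    have hX0 : 0 < X := hypos _
    have hw0 : 0 < w := by linarith
    have hWk := hWpos k
    have hwv : w ≤ v := by
      have : b ≤ v := by rw [hb]; linarith
      linarith
    have huw : u ≤ w := by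
      have : u ≤ a := by rw [ha]; linarith
      linarith
    have hℓk : ℓ (k + 1) * X = 1 / 2 := by
      simp only [hℓ]
      rw [← hX]
      field_simp
    obtain ⟨φ, hφ1, hφ2⟩ := h4 w huw hwv
    have e6 : K k = ⌊X ^ (1 - δ - κ)⌋₊ := rfl
    have e7 : W k = X ^ (-δ) := rfl
    have e8 : τ k = 1 / (2 * X) := rfl
    rw [e6, e7, e8]
    refine ⟨fun j => φ j / X, fun j hj => ?_, fun i j hij hj => ?_⟩
    · obtain ⟨g1, g2, g3⟩ := hφ1 j hj
      have g4 : (φ j : ℝ) / X * X = φ j := by field_simp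
      refine ⟨?_, ?_, ?_⟩
      · rw [le_div_iff₀ hX0]
        exact g2.le
      · have g5 : (φ j / X + ℓ (k + 1)) * X ≤ (w + X ^ (-δ)) * X := by
          rw [add_mul, add_mul, g4, hℓk]
          have g6 : X ^ (-δ) * X = X ^ (1 - δ) := by
            rw [show 1 - δ = -δ + 1 by ring, Real.rpow_add hX0, Real.rpow_one]
          rw [g6]
          linarith
        exact le_of_mul_le_mul_right g5 hX0
      · rintro α ⟨hα1, hα2⟩
        have g5 : (φ j : ℝ) ≤ α * X := by
          rw [div_le_iff₀ hX0] at hα1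
          exact hα1
        have g6 : α * X < φ j + 1 := by
          have g7 : α * X ≤ (φ j / X + ℓ (k + 1)) * X := mul_le_mul_of_nonneg_right hα2 hX0.le
          rw [add_mul, g4, hℓk] at g7
          linarith
        have g8 : ⌊α * X⌋₊ = φ j := by
          rw [Nat.floor_eq_iff (by linarith [Nat.cast_nonneg (α := ℝ) (φ j)])]
          exact ⟨g5, g6⟩
        show G (N0 + (k + 1)) ⌊α * X⌋₊
        rw [g8]
        exact g1
    · have g1 := hφ2 i j hij hj
      have g2 : (φ i : ℝ) + ((j : ℝ) - i) ≤ φ j := by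
        have : ((φ i + (j - i) : ℕ) : ℝ) ≤ (φ j : ℝ) := by exact_mod_cast g1
        push_cast [Nat.cast_sub hij.le] at this
        linarith
      have g3 : (1 : ℝ) ≤ (j : ℝ) - i := by
        have : ((i + 1 : ℕ) : ℝ) ≤ (j : ℝ) := by exact_mod_cast hij
        push_cast at this
        linarith
      have g4 : (φ i / X + ℓ (k + 1) + ((j : ℝ) - i) * (1 / (2 * X))) * X ≤ φ j / X * X := by
        have g5 : (φ j : ℝ) / X * X = φ j := by field_simp
        have g6 : (φ i : ℝ) / X * X = φ i := by field_simp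
        have g7 : ((j : ℝ) - i) * (1 / (2 * X)) * X = ((j : ℝ) - i) / 2 := by field_simp
        rw [add_mul, add_mul, g5, g6, g7, hℓk]
        linarith
      exact le_of_mul_le_mul_right g4 hX0

end Pool.Agent.Q273.SH
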