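import Mathlib
import Pool.Agent.Q273.CG.Dil
import Pool.Agent.Q273.CG.PrW

/-!
# Many primes at the ends of record gaps in short windows
-/

set_option autoImplicit false

namespace Pool.Agent.Q273.SH

open Set Filter Topology
open Pool.Agent.Q273.CG

/-- `q` is a prime number and every smaller prime number is smaller by more than `D` -/
def EndOfGap (D : ℝ) (q : ℕ) : Prop := q.Prime ∧ ∀ r : ℕ, r.Prime → r < q → (r : ℝ) + D < q

/-- from a prime and a record place before it to the end of a record gap -/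
lemma place {x θ D : ℝ} (hw : ∀ w : ℝ, 0 ≤ w → ∃ n : ℕ, w < n ∧ (n : ℝ) ≤ w + x ^ θ ∧
      ∀ y : ℝ, (n : ℝ) ≤ y → y < n + 1 → Far D y) {r : ℕ} (hr : r.Prime) (hr2 : x ^ θ + 2 ≤ r)
    {h : ℕ} (hh : (h : ℝ) ≤ D) :
    ∃ m : ℕ, EndOfGap D (m + h) ∧ (r : ℝ) - x ^ θ - 2 < m ∧ m ≤ r := by
  classical
  obtain ⟨n, hn1, hn2, hn3⟩ := hw ((r : ℝ) - x ^ θ - 2) (by linarith)
  have hF : Far D (n : ℝ) := hn3 n le_rfl (by linarith)
  have hnr : n < r := by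
    have : (n : ℝ) < r := by linarith
    exact_mod_cast this
  have hex : ∃ q : ℕ, q.Prime ∧ n < q := ⟨r, hr, hnr⟩
  set q := Nat.find hex with hq
  obtain ⟨hq1, hq2⟩ := Nat.find_spec hex
  rw [← hq] at hq1 hq2
  have hqr : q ≤ r := Nat.find_min' hex ⟨hr, hnr⟩
  have hq2' : (n : ℝ) < q := by exact_mod_cast hq2
  have h1 : D < (q : ℝ) - n := by
    have := hF q hq1
    rwa [abs_of_pos (by linarith)] at this
  have hhq : h ≤ q := by
    have h0 : (0 : ℝ) ≤ n := Nat.cast_nonneg n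
    have : (h : ℝ) ≤ q := by linarith
    exact_mod_cast this
  refine ⟨q - h, ?_, ?_, ?_⟩
  · rw [Nat.sub_add_cancel hhq]
    refine ⟨hq1, fun r' hr' hr'q => ?_⟩
    have h2 : r' ≤ n := by
      by_contra hcon
      exact absurd ⟨hr', not_le.1 hcon⟩ (Nat.find_min hex hr'q)
    have h2' : (r' : ℝ) ≤ n := by exact_mod_cast h2
    have h3 : D < (n : ℝ) - r' := by
      have := hF r' hr'
      rwa [abs_of_nonpos (by linarith), neg_sub] at this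
    linarith
  · rw [Nat.cast_sub hhq]
    linarith
  · omega

theorem rec_window {δ : ℝ} (hδ0 : 0 < δ) (hδ1 : δ < 1 / 2)
    (hpw : ∀ κ : ℝ, 0 < κ → ∀ u v : ℝ, 0 < u → u < v →
      ∀ᶠ x : ℝ in atTop, ∀ w : ℝ, u ≤ w → w ≤ v → ∃ φ : ℕ → ℕ,
        (∀ j, j < ⌊x ^ (1 - δ - κ)⌋₊ → (φ j).Prime ∧ w * x < φ j ∧
          (φ j : ℝ) + 1 ≤ w * x + x ^ (1 - δ)) ∧
        ∀ i j : ℕ, i < j → j < ⌊x ^ (1 - δ - κ)⌋₊ → φ i + (j - i) ≤ φ j)
    {κ : ℝ} (hκ : 0 < κ) (hκ1 : κ < 1 / 2) : ∃ c : ℝ, 0 < c ∧ ∀ u v : ℝ, 0 < u → u < v →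
      ∀ᶠ x : ℝ in atTop, ∀ h : ℕ, (h : ℝ) ≤ c * f x → ∀ w : ℝ, u ≤ w → w ≤ v → ∃ φ : ℕ → ℕ,
        (∀ j, j < ⌊x ^ (1 - δ - κ)⌋₊ → EndOfGap (c * f x) (φ j + h) ∧ w * x < φ j ∧
          (φ j : ℝ) + 1 ≤ w * x + x ^ (1 - δ)) ∧
        ∀ i j : ℕ, i < j → j < ⌊x ^ (1 - δ - κ)⌋₊ → φ i + (j - i) ≤ φ j := by
  classical
  set θ : ℝ := κ / 4 with hθ
  have hθ0 : 0 < θ := by positivity
  have hθ1 : θ < 1 / 8 := by rw [hθ]; linarith
  obtain ⟨c, hc, hwin⟩ := windows θ hθ0 (by linarith) 0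
  refine ⟨c, hc, fun u v hu huv => ?_⟩
  have t1 : ∀ᶠ x : ℝ in atTop, 2 / u ≤ x ^ (1 - θ) ∧ 4 / u ≤ x :=
    ((tendsto_rpow_atTop (by linarith)).eventually_ge_atTop _).and (eventually_ge_atTop _)
  have t2 : ∀ᶠ x : ℝ in atTop, 12 ≤ x ^ (2 * θ) ∧ 2 ≤ x ^ (1 - δ - θ) :=
    ((tendsto_rpow_atTop (by positivity)).eventually_ge_atTop _).and
      ((tendsto_rpow_atTop (by linarith)).eventually_ge_atTop _)
  filter_upwards [hwin, hpw θ hθ0 u v hu huv, t1, t2, eventually_gt_atTop (1 : ℝ)]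
    with x h1 h2 h3 h4 hx1
  intro h hh w hwu hwv
  have hx0 : 0 < x := by linarith
  have hxp : ∀ z : ℝ, 0 < x ^ z := fun z => Real.rpow_pos_of_pos hx0 z
  have hxθ : 1 ≤ x ^ θ := Real.one_le_rpow hx1.le hθ0.le
  have hw' : ∀ w : ℝ, 0 ≤ w → ∃ n : ℕ, w < n ∧ (n : ℝ) ≤ w + x ^ θ ∧
      ∀ y : ℝ, (n : ℝ) ≤ y → y < n + 1 → Far (c * f x) y := by
    intro w hw
    obtain ⟨n, -, g2, g3, g4⟩ := h1 1 0 le_rfl
      (fun p hp hp1 => absurd (Nat.dvd_one.1 hp1) hp.one_lt.ne')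
      (by simpa using Real.one_le_rpow hx1.le (by positivity : 0 ≤ θ / 2)) w hw
    exact ⟨n, g2, g3, g4⟩
  obtain ⟨r, hr1, hr2⟩ := h2 w hwu hwv
  -- `x ^ θ + 2 ≤ u x`
  have hux : x ^ θ + 2 ≤ u * x := by
    obtain ⟨e1, e2⟩ := h3
    rw [div_le_iff₀ hu] at e1 e2
    have e3 : x ^ θ * x ^ (1 - θ) = x := by
      rw [← Real.rpow_add hx0]
      simp
    have e4 : 2 * x ^ θ ≤ u * x := by
      calc 2 * x ^ θ ≤ (x ^ (1 - θ) * u) * x ^ θ := mul_le_mul_of_nonneg_right e1 (hxp θ).le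
        _ = u * (x ^ θ * x ^ (1 - θ)) := by ring
        _ = u * x := by rw [e3]
    rcases le_or_gt 2 (x ^ θ) with h5 | h5
    · linarith
    · linarith
  set L : ℕ := ⌈x ^ θ⌉₊ + 3 with hL
  have hL1 : x ^ θ + 3 ≤ L := by
    have := Nat.le_ceil (x ^ θ)
    rw [hL]
    push_cast
    linarith
  have hL2 : (L : ℝ) ≤ 5 * x ^ θ := by
    have := Nat.ceil_lt_add_one (hxp θ).le
    rw [hL]
    push_cast
    linarith
  set K : ℕ := ⌊x ^ (1 - δ - κ)⌋₊ with hK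
  set K0 : ℕ := ⌊x ^ (1 - δ - θ)⌋₊ with hK0
  have hKL : K * L < K0 := by
    have e1 : (K : ℝ) ≤ x ^ (1 - δ - κ) := Nat.floor_le (hxp _).le
    have e2 : x ^ (1 - δ - θ) < K0 + 1 := Nat.lt_floor_add_one _
    have e3 : x ^ (1 - δ - κ) * x ^ θ * x ^ (2 * θ) = x ^ (1 - δ - θ) := by
      rw [← Real.rpow_add hx0, ← Real.rpow_add hx0]
      congr 1
      rw [hθ]
      ring
    have e4 : (K : ℝ) * L ≤ x ^ (1 - δ - κ) * (5 * x ^ θ) :=
      mul_le_mul e1 hL2 (Nat.cast_nonneg _) (hxp _).le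
    have e5 : 12 * (x ^ (1 - δ - κ) * x ^ θ) ≤ x ^ (1 - δ - θ) := by
      rw [← e3, mul_comm (12 : ℝ)]
      exact mul_le_mul_of_nonneg_left h4.1 (mul_pos (hxp _) (hxp _)).le
    have e6 : (K : ℝ) * L < K0 := by
      have := h4.2
      linarith
    exact_mod_cast e6
  have hLpos : 1 ≤ L := by omega
  have hidx : ∀ i, i < K → (i + 1) * L < K0 := fun i hi =>
    lt_of_le_of_lt (Nat.mul_le_mul_right L hi) hKL
  have hr0 : 0 < K0 := by omega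
  have key : ∀ i, i < K → ∃ m : ℕ, EndOfGap (c * f x) (m + h) ∧
      (r ((i + 1) * L) : ℝ) - x ^ θ - 2 < m ∧ m ≤ r ((i + 1) * L) := by
    intro i hi
    obtain ⟨g1, g2, g3⟩ := hr1 _ (hidx i hi)
    have g4 : u * x ≤ w * x := mul_le_mul_of_nonneg_right hwu hx0.le
    exact place hw' g1 (by linarith) hh
  choose! m hm1 hm2 hm3 using key
  refine ⟨m, fun i hi => ⟨hm1 i hi, ?_, ?_⟩, fun i j hij hj => ?_⟩
  · -- above the lower end
    have g1 := hr2 0 ((i + 1) * L) (Nat.mul_pos (Nat.succ_pos i) hLpos) (hidx i hi)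
    obtain ⟨-, g3, -⟩ := hr1 0 hr0
    have g4 : (r 0 : ℝ) + ((i + 1) * L : ℕ) ≤ r ((i + 1) * L) := by
      rw [Nat.sub_zero] at g1
      exact_mod_cast g1
    have g5 : (L : ℝ) ≤ ((i + 1) * L : ℕ) := by
      exact_mod_cast Nat.le_mul_of_pos_left L (Nat.succ_pos i)
    have g6 := hm2 i hi
    linarith
  · obtain ⟨-, -, g3⟩ := hr1 _ (hidx i hi)
    have g4 : ((m i : ℕ) : ℝ) ≤ r ((i + 1) * L) := by exact_mod_cast hm3 i hi
    linarith
  · have hi : i < K := lt_trans hij hj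
    have hlt : (i + 1) * L < (j + 1) * L := Nat.mul_lt_mul_of_pos_right (by omega) hLpos
    have g1 := hr2 _ _ hlt (hidx j hj)
    have g2 : (r ((i + 1) * L) : ℝ) + ((j : ℝ) - i) * L ≤ r ((j + 1) * L) := by
      have : ((r ((i + 1) * L) + ((j + 1) * L - (i + 1) * L) : ℕ) : ℝ) ≤ r ((j + 1) * L) := by
        exact_mod_cast g1
      rw [Nat.cast_add, Nat.cast_sub hlt.le] at this
      push_cast at this
      linarith
    have g3 := hm2 j hj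
    have g4 : ((m i : ℕ) : ℝ) ≤ r ((i + 1) * L) := by exact_mod_cast hm3 i hi
    have g5 : (1 : ℝ) ≤ (j : ℝ) - i := by
      have : ((i + 1 : ℕ) : ℝ) ≤ (j : ℝ) := by exact_mod_cast hij
      push_cast at this
      linarith
    have g6 : ((j : ℝ) - i) + (L - 1) ≤ ((j : ℝ) - i) * L := by nlinarith
    have g7 : ((m i : ℕ) : ℝ) + ((j : ℝ) - i) < m j := by linarith
    have g8 : ((m i + (j - i) : ℕ) : ℝ) < m j := by
      rw [Nat.cast_add, Nat.cast_sub hij.le]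
      exact g7
    exact_mod_cast g8.le

end Pool.Agent.Q273.SH
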