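import Mathlib
import Pool.Agent.Q273.SH.Core
import Pool.Agent.Q273.SH.Win

/-!
# Prescribed distances to the next prime, at the ends of record gaps
-/

set_option autoImplicit false

namespace Pool.Agent.Q273.SH

open Set Filter Topology
open scoped ENNReal NNReal
open Pool.Agent.Q273.CG

theorem shift_core : ∃ C : ℝ, 1 < C ∧ ∀ ε : ℝ, 0 < ε → ε < 1 → ∃ c : ℝ, 0 < c ∧
    ∀ x : ℕ → ℝ, (∀ n, 0 < x n) → Tendsto x atTop atTop → (∀ᶠ n in atTop, (x n) ^ C ≤ x (n + 1)) →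
    ∀ h : ℕ → ℕ, (∀ᶠ n in atTop, (h n : ℝ) ≤ c * f (x n)) → ∀ u v : ℝ, 0 < u → u < v →
      ENNReal.ofReal (1 - ε) ≤ dimH {α : ℝ | u < α ∧ α < v ∧ ∀ᶠ n in atTop,
        EndOfGap (c * f (x n)) (⌊α * x n⌋₊ + h n)} := by
  obtain ⟨δ, hδ0, hδ1, hpw⟩ := prime_window
  refine ⟨4 / δ, by rw [lt_div_iff₀ hδ0]; linarith, fun ε h0 h1 => ?_⟩
  have hκ0 : 0 < ε * δ / 8 := by positivity
  have hκ1 : ε * δ / 8 < 1 / 2 := by nlinarith
  obtain ⟨c, hc, hw⟩ := rec_window hδ0 hδ1 hpw hκ0 hκ1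
  refine ⟨c, hc, fun x hx hxt hxC h hh u v hu huv => ?_⟩
  refine core hδ0 hδ1 h0 h1 x hx hxt hxC
    (fun n m => EndOfGap (c * f (x n)) (m + h n)) u v hu huv ?_
  filter_upwards [hxt.eventually (hw u v hu huv), hh] with n g1 g2
  intro w hw1 hw2
  exact g1 (h n) g2 w hw1 hw2

/-- if the end of a gap of length more than `D` is at distance `h ≤ D` from `m`, it is the next prime
number after `m` -/
lemma next_eq {D : ℝ} {m h : ℕ} (h1 : 1 ≤ h) (h2 : (h : ℝ) ≤ D) (hE : EndOfGap D (m + h)) :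
    sInf {p : ℕ | p.Prime ∧ m < p} = m + h := by
  apply le_antisymm
  · exact Nat.sInf_le ⟨hE.1, by omega⟩
  · have hne : {p : ℕ | p.Prime ∧ m < p}.Nonempty := ⟨m + h, hE.1, by omega⟩
    refine le_csInf hne ?_
    rintro p ⟨hp1, hp2⟩
    by_contra hcon
    rw [not_le] at hcon
    have h3 := hE.2 p hp1 hcon
    have h4 : (m : ℝ) + 1 ≤ p := by exact_mod_cast hp2
    push_cast at h3
    linarith

theorem f_nonneg : ∀ᶠ x : ℝ in atTop, 0 ≤ f x := by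
  filter_upwards [f_rpow (θ := 1) one_pos le_rfl, eventually_ge_atTop (1 : ℝ)] with x h1 h2
  exact (Real.log_nonneg h2).trans h1.2

theorem win_count : ∃ δ : ℝ, 0 < δ ∧ δ < 1 / 2 ∧ ∀ ε : ℝ, 0 < ε → ε < 1 / 2 → ∃ c : ℝ, 0 < c ∧
    ∀ᶠ X : ℝ in atTop, ∀ h : ℕ, (h : ℝ) ≤ c * f X →
      X ^ (1 - δ - ε) ≤ (({m : ℕ | X < m ∧ (m : ℝ) ≤ X + X ^ (1 - δ) ∧
        EndOfGap (c * f X) (m + h)}.ncard : ℕ) : ℝ) := by
  classical
  obtain ⟨δ, hδ0, hδ1, hpw⟩ := prime_window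
  refine ⟨δ, hδ0, hδ1, fun ε h0 h1 => ?_⟩
  obtain ⟨c, hc, hw⟩ := rec_window hδ0 hδ1 hpw (κ := ε / 2) (by positivity) (by linarith)
  refine ⟨c, hc, ?_⟩
  have t1 : ∀ᶠ X : ℝ in atTop, 2 ≤ X ^ (ε / 2) :=
    (tendsto_rpow_atTop (by positivity)).eventually_ge_atTop _
  filter_upwards [hw (1 / 2) 2 (by norm_num) (by norm_num), t1, eventually_gt_atTop (1 : ℝ)]
    with X g1 g2 hX1
  intro h hh
  have hX0 : 0 < X := by linarith
  obtain ⟨φ, hφ1, hφ2⟩ := g1 h hh 1 (by norm_num) (by norm_num)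
  set K : ℕ := ⌊X ^ (1 - δ - ε / 2)⌋₊ with hK
  set S : Set ℕ := {m : ℕ | X < m ∧ (m : ℝ) ≤ X + X ^ (1 - δ) ∧ EndOfGap (c * f X) (m + h)} with hS
  have hSfin : S.Finite := by
    refine (Set.finite_Iic ⌊X + X ^ (1 - δ)⌋₊).subset ?_
    rintro m ⟨-, h2, -⟩
    exact Nat.le_floor h2
  have hinj : Set.InjOn φ (Finset.range K : Set ℕ) := by
    intro i hi j hj hij
    rw [Finset.coe_range, Set.mem_Iio] at hi hj
    rcases lt_trichotomy i j with h3 | h3 | h3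
    · have := hφ2 i j h3 hj
      omega
    · exact h3
    · have := hφ2 j i h3 hi
      omega
  have hsub : (Finset.range K).image φ ⊆ hSfin.toFinset := by
    intro m hm
    rw [Finset.mem_image] at hm
    obtain ⟨j, hj, rfl⟩ := hm
    rw [Finset.mem_range] at hj
    obtain ⟨h3, h4, h5⟩ := hφ1 j hj
    rw [one_mul] at h4 h5
    rw [Set.Finite.mem_toFinset]
    exact ⟨h4, by linarith, h3⟩
  have hcard : K ≤ S.ncard := by
    rw [Set.ncard_eq_toFinset_card _ hSfin]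
    calc K = ((Finset.range K).image φ).card := by
          rw [Finset.card_image_of_injOn hinj, Finset.card_range]
      _ ≤ _ := Finset.card_le_card hsub
  have e1 : X ^ (1 - δ - ε / 2) < K + 1 := Nat.lt_floor_add_one _
  have e2 : X ^ (1 - δ - ε) * X ^ (ε / 2) = X ^ (1 - δ - ε / 2) := by
    rw [← Real.rpow_add hX0]
    congr 1
    ring
  have e3 : 1 ≤ X ^ (1 - δ - ε) := Real.one_le_rpow hX1.le (by linarith)
  have e4 : X ^ (1 - δ - ε) * 2 ≤ X ^ (1 - δ - ε) * X ^ (ε / 2) :=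
    mul_le_mul_of_nonneg_left g2 (by linarith)
  have e5 : (K : ℝ) ≤ S.ncard := by exact_mod_cast hcard
  linarith

end Pool.Agent.Q273.SH
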